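import Mathlib
import Pool.Agent.Q57.LS.Dec

/-! Logarithmic derivatives; their coefficients do not vanish for factorially divergent series. -/

set_option linter.unusedSectionVars false

namespace Q57.LU

open Q57.LM (PS mu mu_pos mu_succ)

/-- coefficients of the logarithmic derivative `X f' / f` of `f = 1 + …` -/
def dl {A : Type} [CommRing A] (f : ℕ → A) : ℕ → A
  | k => (k : A) * f k - ∑ j : Fin k, if j.1 = 0 then 0 else dl f j.1 * f (k - j.1)
termination_by k => k
decreasing_by exact j.2

theorem dl_eq {A : Type} [CommRing A] (f : ℕ → A) (k : ℕ) :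
    dl f k = (k : A) * f k - ∑ j ∈ Finset.range k, if j = 0 then 0 else dl f j * f (k - j) := by
  rw [dl]
  congr 1
  exact Fin.sum_univ_eq_sum_range (fun j => if j = 0 then 0 else dl f j * f (k - j)) k

theorem dl_zero {A : Type} [CommRing A] (f : ℕ → A) : dl f 0 = 0 := by
  rw [dl_eq]; simp

theorem map_dl {A B : Type} [CommRing A] [CommRing B] (φ : A →+* B) (f : ℕ → A) (k : ℕ) :
    φ (dl f k) = dl (fun i => φ (f i)) k := by
  induction k using Nat.strong_induction_on with
  | _ k ih =>
    rw [dl_eq, dl_eq, map_sub, map_mul, map_natCast, map_sum]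
    congr 1
    refine Finset.sum_congr rfl fun j hj => ?_
    split_ifs with h
    · exact map_zero φ
    · rw [map_mul, ih j (Finset.mem_range.mp hj)]

open Polynomial in
theorem dl_deg (P : ℕ → ℂ[X]) (hP : ∀ k, (P k).natDegree ≤ k) (k : ℕ) :
    (dl P k).natDegree ≤ k ∧ (dl P k).coeff k = dl (fun i => (P i).coeff i) k := by
  induction k using Nat.strong_induction_on with
  | _ k ih =>
    have hterm : ∀ j ∈ Finset.range k, (if j = 0 then 0 else dl P j * P (k - j)).natDegree ≤ k := by
      intro j hj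
      have hj' := Finset.mem_range.mp hj
      split_ifs with h
      · simp
      · refine natDegree_mul_le.trans ?_
        have h1 := (ih j hj').1
        have h2 := hP (k - j)
        omega
    have h1 : ((k : ℂ[X]) * P k).natDegree ≤ k := by
      have : (k : ℂ[X]) = C (k : ℂ) := (map_natCast C k).symm
      rw [this]
      exact (natDegree_C_mul_le _ _).trans (hP k)
    refine ⟨?_, ?_⟩
    · rw [dl_eq]
      refine (natDegree_sub_le _ _).trans (max_le h1 ?_)
      exact natDegree_sum_le_of_forall_le _ _ hterm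
    · rw [dl_eq, dl_eq, coeff_sub, finsetSum_coeff]
      congr 1
      · have : (k : ℂ[X]) = C (k : ℂ) := (map_natCast C k).symm
        rw [this, coeff_C_mul]
      · refine Finset.sum_congr rfl fun j hj => ?_
        have hj' := Finset.mem_range.mp hj
        split_ifs with h
        · simp
        · have h2 := coeff_mul_add_eq_of_natDegree_le (ih j hj').1 (hP (k - j))
          have e : j + (k - j) = k := by omega
          rw [e] at h2
          rw [h2, (ih j hj').2]

/-! ### growth -/

theorem mu_mul_le (a b : ℕ) : mu (3 + a) * mu (3 + b) ≤ mu 3 * mu (3 + a + b) := by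
  induction a with
  | zero => simp
  | succ a ih =>
    have e1 : 3 + (a + 1) = (3 + a) + 1 := by ring
    have e2 : 3 + a + 1 + b = (3 + a + b) + 1 := by ring
    have h1 := mu_pos (3 + a)
    have h2 := mu_pos (3 + b)
    have h3 := mu_pos 3
    have h4 := mu_pos (3 + a + b)
    rw [e1, e2, mu_succ (3 + a), mu_succ (3 + a + b)]
    push_cast
    calc (2 * (3 + (a : ℝ)) + 1) * mu (3 + a) * mu (3 + b)
        = (2 * (3 + (a : ℝ)) + 1) * (mu (3 + a) * mu (3 + b)) := by ring
      _ ≤ (2 * (3 + (a : ℝ)) + 1) * (mu 3 * mu (3 + a + b)) := by gcongr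
      _ ≤ (2 * (3 + (a : ℝ) + (b : ℝ)) + 1) * (mu 3 * mu (3 + a + b)) := by
          refine mul_le_mul_of_nonneg_right ?_ (by positivity)
          have : (0 : ℝ) ≤ (b : ℝ) := by positivity
          linarith
      _ = _ := by ring

theorem mu_two : mu 2 = 3 := by
  have h0 := mu_succ 0
  have h1 := mu_succ 1
  rw [Q57.LM.mu_zero] at h0
  norm_num at h0 h1
  rw [h1, h0]; norm_num

theorem mu_three : mu 3 = 15 := by
  have h1 := mu_succ 2
  rw [mu_two] at h1
  norm_num at h1
  exact h1

theorem conv_bound (m : ℕ) :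
    ((m : ℝ) + 2) * ∑ i ∈ Finset.range (m + 1), mu (i + 2) * mu (m - i + 2) ≤ 7 * mu (m + 3) := by
  have hb : ∀ i ∈ Finset.range (m + 1), mu (i + 2) * mu (m - i + 2)
      ≤ 15 * mu (m + 1) + (if i = 0 then 3 * mu (m + 2) else 0)
        + (if i = m then 3 * mu (m + 2) else 0) := by
    intro i hi
    have hi' : i ≤ m := by
      have := Finset.mem_range.mp hi
      omega
    have p1 := mu_pos (m + 1)
    have p2 := mu_pos (m + 2)
    by_cases h0 : i = 0
    · subst h0
      rw [if_pos rfl, Nat.sub_zero, zero_add, mu_two]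
      have : 0 ≤ (if 0 = m then 3 * mu (m + 2) else 0) := by split_ifs <;> positivity
      linarith
    · by_cases hm : i = m
      · subst hm
        rw [if_neg h0, if_pos rfl, Nat.sub_self, zero_add, mu_two]
        linarith
      · rw [if_neg h0, if_neg hm, add_zero, add_zero]
        have h1 := mu_mul_le (i - 1) (m - i - 1)
        have e1 : 3 + (i - 1) = i + 2 := by omega
        have e2 : 3 + (m - i - 1) = m - i + 2 := by omega
        have e3 : 3 + (i - 1) + (m - i - 1) = m + 1 := by omega
        rw [e3, e1, e2, mu_three] at h1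
        exact h1
  have hs := Finset.sum_le_sum hb
  rw [Finset.sum_add_distrib, Finset.sum_add_distrib, Finset.sum_const, Finset.card_range,
    nsmul_eq_mul, Finset.sum_ite_eq', Finset.sum_ite_eq', if_pos (by simp), if_pos (by simp)] at hs
  have e1 : mu (m + 2) = (2 * (m : ℝ) + 3) * mu (m + 1) := by
    have := mu_succ (m + 1)
    push_cast at this
    rw [this]; ring
  have e2 : mu (m + 3) = (2 * (m : ℝ) + 5) * ((2 * (m : ℝ) + 3) * mu (m + 1)) := by
    have := mu_succ (m + 2)
    push_cast at this
    rw [this, e1]; ring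
  rw [e1] at hs
  rw [e2]
  have p1 := mu_pos (m + 1)
  have hm0 : (0 : ℝ) ≤ (m : ℝ) := by positivity
  push_cast at hs
  calc ((m : ℝ) + 2) * ∑ i ∈ Finset.range (m + 1), mu (i + 2) * mu (m - i + 2)
      ≤ ((m : ℝ) + 2) * (((m : ℝ) + 1) * (15 * mu (m + 1))
        + 3 * ((2 * (m : ℝ) + 3) * mu (m + 1)) + 3 * ((2 * (m : ℝ) + 3) * mu (m + 1))) := by
        refine mul_le_mul_of_nonneg_left hs (by positivity)
    _ = (27 * (m : ℝ) ^ 2 + 87 * m + 66) * mu (m + 1) := by ring
    _ ≤ (28 * (m : ℝ) ^ 2 + 112 * m + 105) * mu (m + 1) := by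
        refine mul_le_mul_of_nonneg_right ?_ p1.le
        nlinarith
    _ = _ := by ring

/-- the comparison sequence -/
noncomputable def vv (α : ℝ) (k : ℕ) : ℝ := mu (k + 1) * α ^ (k + 1)

theorem vv_pos (α : ℝ) (hα : 0 < α) (k : ℕ) : 0 < vv α k := by
  have := mu_pos (k + 1)
  unfold vv; positivity

theorem vv_conv (α : ℝ) (hα : 0 < α) (k : ℕ) :
    (k : ℝ) * ∑ j ∈ Finset.range k, (if j = 0 then 0 else vv α j * vv α (k - j))
      ≤ 7 * α * vv α k := by
  have hp := vv_pos α hα k
  rcases Nat.lt_or_ge k 2 with h | h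
  · have : ∑ j ∈ Finset.range k, (if j = 0 then 0 else vv α j * vv α (k - j)) = 0 := by
      refine Finset.sum_eq_zero fun j hj => ?_
      have := Finset.mem_range.mp hj
      rw [if_pos (by omega)]
    rw [this, mul_zero]
    positivity
  · obtain ⟨m, rfl⟩ : ∃ m, k = m + 2 := ⟨k - 2, by omega⟩
    rw [Finset.sum_range_succ']
    rw [if_pos rfl, add_zero]
    have e : ∑ i ∈ Finset.range (m + 1), (if i + 1 = 0 then 0 else vv α (i + 1)
        * vv α (m + 2 - (i + 1)))
        = α ^ (m + 4) * ∑ i ∈ Finset.range (m + 1), mu (i + 2) * mu (m - i + 2) := by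
      rw [Finset.mul_sum]
      refine Finset.sum_congr rfl fun i hi => ?_
      have hi' := Finset.mem_range.mp hi
      rw [if_neg (by omega)]
      unfold vv
      have e1 : m + 2 - (i + 1) + 1 = m - i + 2 := by omega
      have e2 : i + 1 + 1 = i + 2 := by ring
      rw [e1, e2]
      have e3 : α ^ (m + 4) = α ^ (i + 2) * α ^ (m - i + 2) := by
        rw [← pow_add]; congr 1; omega
      rw [e3]; ring
    rw [e]
    have hc := conv_bound m
    unfold vv
    push_cast
    calc ((m : ℝ) + 2) * (α ^ (m + 4) * ∑ i ∈ Finset.range (m + 1), mu (i + 2) * mu (m - i + 2))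
        = α ^ (m + 4) * (((m : ℝ) + 2) * ∑ i ∈ Finset.range (m + 1),
            mu (i + 2) * mu (m - i + 2)) := by ring
      _ ≤ α ^ (m + 4) * (7 * mu (m + 3)) := by gcongr
      _ = _ := by
        have : m + 2 + 1 = m + 3 := by ring
        rw [this]; ring

/-- the coefficients of the logarithmic derivative do not vanish eventually -/
theorem dl_ne (w : ℕ → ℂ) (α C c : ℝ) (hα : 0 < α) (hC : 0 < C) (hc : 0 < c)
    (h1 : ∀ k, ‖w k‖ ≤ C * vv α k) (k1 : ℕ) (h2 : ∀ k, k1 ≤ k → c * vv α k ≤ ‖w k‖) :
    ∃ k0 : ℕ, ∀ k, k0 ≤ k → dl w k ≠ 0 := by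
  obtain ⟨K1, hK1⟩ := exists_nat_ge (14 * α * C)
  set K := K1 + 1 with hK
  have hv := vv_pos α hα
  set M := (∑ j ∈ Finset.range K, ‖dl w j‖ / ((j : ℝ) * vv α j)) + 2 * C with hM
  have hM0 : 0 < M := by
    have : 0 ≤ ∑ j ∈ Finset.range K, ‖dl w j‖ / ((j : ℝ) * vv α j) :=
      Finset.sum_nonneg fun j _ => div_nonneg (norm_nonneg _)
        (mul_nonneg (by positivity) (hv j).le)
    rw [hM]; linarith
  have hMC : 2 * C ≤ M := by
    have : 0 ≤ ∑ j ∈ Finset.range K, ‖dl w j‖ / ((j : ℝ) * vv α j) :=
      Finset.sum_nonneg fun j _ => div_nonneg (norm_nonneg _)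
        (mul_nonneg (by positivity) (hv j).le)
    rw [hM]; linarith
  -- the tail sum
  have htail : ∀ k : ℕ, (∀ j < k, ‖dl w j‖ ≤ M * ((j : ℝ) * vv α j)) →
      ‖∑ j ∈ Finset.range k, (if j = 0 then 0 else dl w j * w (k - j))‖
        ≤ M * C * (7 * α * vv α k) := by
    intro k hk
    calc ‖∑ j ∈ Finset.range k, (if j = 0 then 0 else dl w j * w (k - j))‖
        ≤ ∑ j ∈ Finset.range k, (M * C * (k : ℝ)) * (if j = 0 then 0 else vv α j * vv α (k - j)) := by
          refine norm_sum_le_of_le _ fun j hj => ?_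
          have hj' := Finset.mem_range.mp hj
          split_ifs with h
          · simp
          · rw [norm_mul]
            have hvj := hv j
            have hvk := hv (k - j)
            calc ‖dl w j‖ * ‖w (k - j)‖ ≤ (M * ((j : ℝ) * vv α j)) * (C * vv α (k - j)) :=
                  mul_le_mul (hk j hj') (h1 _) (norm_nonneg _) (by positivity)
              _ = (M * C * (j : ℝ)) * (vv α j * vv α (k - j)) := by ring
              _ ≤ (M * C * (k : ℝ)) * (vv α j * vv α (k - j)) := by
                  have : (j : ℝ) ≤ (k : ℝ) := by exact_mod_cast hj'.le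
                  gcongr
      _ = M * C * ((k : ℝ) * ∑ j ∈ Finset.range k, (if j = 0 then 0 else vv α j * vv α (k - j))) := by
          rw [← Finset.mul_sum]; ring
      _ ≤ M * C * (7 * α * vv α k) := by
          refine mul_le_mul_of_nonneg_left (vv_conv α hα k) (by positivity)
  have key : ∀ k : ℕ, ‖dl w k‖ ≤ M * ((k : ℝ) * vv α k) := by
    intro k
    induction k using Nat.strong_induction_on with
    | _ k ih =>
      rcases Nat.eq_zero_or_pos k with hk0 | hk0
      · subst hk0; rw [dl_zero]; simp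
      have hkp : (0 : ℝ) < (k : ℝ) := by exact_mod_cast hk0
      have hvk := hv k
      by_cases hk : k < K
      · have h6 : ‖dl w k‖ / ((k : ℝ) * vv α k)
            ≤ ∑ j ∈ Finset.range K, ‖dl w j‖ / ((j : ℝ) * vv α j) :=
          Finset.single_le_sum (f := fun j => ‖dl w j‖ / ((j : ℝ) * vv α j))
            (fun j _ => div_nonneg (norm_nonneg _) (mul_nonneg (by positivity) (hv j).le))
            (by simpa using hk)
        have h7 : ‖dl w k‖ / ((k : ℝ) * vv α k) ≤ M := by
          rw [hM]; linarith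
        rwa [div_le_iff₀ (by positivity)] at h7
      · have ht := htail k ih
        have hkK : 14 * α * C ≤ (k : ℝ) := by
          have : (K1 : ℝ) ≤ (k : ℝ) := by exact_mod_cast (by omega : K1 ≤ k)
          linarith
        rw [dl_eq]
        calc ‖(k : ℂ) * w k - ∑ j ∈ Finset.range k, (if j = 0 then 0 else dl w j * w (k - j))‖
            ≤ ‖(k : ℂ) * w k‖ + ‖∑ j ∈ Finset.range k, (if j = 0 then 0 else dl w j * w (k - j))‖ :=
              norm_sub_le _ _
          _ ≤ (k : ℝ) * (C * vv α k) + M * C * (7 * α * vv α k) := by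
              refine add_le_add ?_ ht
              rw [norm_mul, Complex.norm_natCast]
              exact mul_le_mul_of_nonneg_left (h1 k) hkp.le
          _ = ((k : ℝ) * C + M * (14 * α * C) / 2) * vv α k := by ring
          _ ≤ ((k : ℝ) * (M / 2) + M * (k : ℝ) / 2) * vv α k := by
              refine mul_le_mul_of_nonneg_right (add_le_add ?_ ?_) hvk.le
              · refine mul_le_mul_of_nonneg_left ?_ hkp.le
                linarith
              · have : M * (14 * α * C) ≤ M * (k : ℝ) := mul_le_mul_of_nonneg_left hkK hM0.le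
                linarith
          _ = _ := by ring
  obtain ⟨k2, hk2⟩ := exists_nat_gt (7 * M * C * α / c)
  refine ⟨max k1 k2, fun k hk hz => ?_⟩
  have hk1 : k1 ≤ k := le_trans (le_max_left _ _) hk
  have hk2' : (k2 : ℝ) ≤ (k : ℝ) := by exact_mod_cast le_trans (le_max_right _ _) hk
  have ht := htail k fun j _ => key j
  have e := dl_eq w k
  rw [hz] at e
  have e2 : (k : ℂ) * w k = ∑ j ∈ Finset.range k, (if j = 0 then 0 else dl w j * w (k - j)) := by
    linear_combination -e
  rw [← e2, norm_mul, Complex.norm_natCast] at ht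
  have hvk := hv k
  have h3 := h2 k hk1
  have h4 : (k : ℝ) * (c * vv α k) ≤ M * C * (7 * α * vv α k) :=
    (mul_le_mul_of_nonneg_left h3 (by positivity)).trans ht
  have h5 : (k : ℝ) * c ≤ 7 * M * C * α := by
    have : ((k : ℝ) * c) * vv α k ≤ (7 * M * C * α) * vv α k := by
      calc ((k : ℝ) * c) * vv α k = (k : ℝ) * (c * vv α k) := by ring
        _ ≤ M * C * (7 * α * vv α k) := h4
        _ = _ := by ring
    exact le_of_mul_le_mul_right this hvk
  rw [div_lt_iff₀ hc] at hk2
  have h6 : (k2 : ℝ) * c ≤ (k : ℝ) * c := mul_le_mul_of_nonneg_right hk2' hc.le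
  linarith

end Q57.LU
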