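import Mathlib

/-! Relations between the values of polynomials whose degrees are all but finitely many integers. -/

set_option linter.unusedSectionVars false

namespace Q57.LU

open Polynomial

/-- the value of the functional `a` on the polynomial `q` -/
noncomputable def pair (q : ℂ[X]) (a : ℤ →₀ ℂ) : ℂ := a.sum fun n c => c * q.eval (n : ℂ)

theorem pair_add_left (q r : ℂ[X]) (a : ℤ →₀ ℂ) : pair (q + r) a = pair q a + pair r a := by
  unfold pair
  rw [← Finsupp.sum_add]
  exact Finsupp.sum_congr fun n _ => by rw [eval_add]; ring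

theorem pair_C_mul (c : ℂ) (q : ℂ[X]) (a : ℤ →₀ ℂ) : pair (C c * q) a = c * pair q a := by
  unfold pair
  rw [Finsupp.mul_sum]
  exact Finsupp.sum_congr fun n _ => by rw [eval_mul, eval_C]; ring

theorem pair_zero_left (a : ℤ →₀ ℂ) : pair 0 a = 0 := by
  unfold pair
  simp

theorem pair_add (q : ℂ[X]) (a b : ℤ →₀ ℂ) : pair q (a + b) = pair q a + pair q b := by
  unfold pair
  exact Finsupp.sum_add_index' (fun n => by simp) (fun n c d => by ring)

theorem pair_smul (q : ℂ[X]) (c : ℂ) (a : ℤ →₀ ℂ) : pair q (c • a) = c * pair q a := by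
  unfold pair
  rw [Finsupp.sum_smul_index (fun n => by simp), Finsupp.mul_sum]
  exact Finsupp.sum_congr fun n _ => by ring

theorem pair_sum (T : Finset ℕ) (f : ℕ → ℂ[X]) (a : ℤ →₀ ℂ) :
    pair (∑ i ∈ T, f i) a = ∑ i ∈ T, pair (f i) a := by
  classical
  induction T using Finset.induction_on with
  | empty => simp [pair_zero_left]
  | insert x T hx ih => rw [Finset.sum_insert hx, Finset.sum_insert hx, pair_add_left, ih]

/-- polynomials separate points -/
theorem eq_zero_of_pair (a : ℤ →₀ ℂ) (h : ∀ q : ℂ[X], pair q a = 0) : a = 0 := by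
  classical
  ext n0
  by_contra hne
  have h1 := h (∏ n ∈ a.support.erase n0, (X - C (n : ℂ)))
  unfold pair at h1
  rw [Finsupp.sum, Finset.sum_eq_single n0] at h1
  · refine mul_ne_zero hne ?_ h1
    rw [eval_prod]
    refine Finset.prod_ne_zero_iff.mpr fun n hn => ?_
    rw [eval_sub, eval_X, eval_C, sub_ne_zero]
    have : n ≠ n0 := (Finset.mem_erase.mp hn).1
    exact fun h2 => this (by exact_mod_cast h2.symm)
  · intro n hn hnn
    rw [eval_prod, Finset.prod_eq_zero (Finset.mem_erase.mpr ⟨hnn, hn⟩), mul_zero]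
    simp
  · intro hn
    exact absurd (Finsupp.mem_support_iff.mpr hne) hn

/-- If `d k` has degree exactly `k` for `k ≥ k0`, then the functionals that vanish on all `d k`,
`k ≥ k0`, are supported in one finite set. -/
theorem finite_support (d : ℕ → ℂ[X]) (k0 : ℕ) (hdeg : ∀ k, k0 ≤ k → (d k).natDegree ≤ k)
    (hlead : ∀ k, k0 ≤ k → (d k).coeff k ≠ 0) :
    ∃ E : Finset ℤ, ∀ a : ℤ →₀ ℂ, (∀ k, k0 ≤ k → pair (d k) a = 0) → a.support ⊆ E := by
  classical
  let R : Submodule ℂ (ℤ →₀ ℂ) :=
    { carrier := {a | ∀ k, k0 ≤ k → pair (d k) a = 0}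
      add_mem' := fun ha hb k hk => by rw [pair_add, ha k hk, hb k hk, add_zero]
      zero_mem' := fun k _ => by simp [pair]
      smul_mem' := fun c a ha k hk => by rw [pair_smul, ha k hk, mul_zero] }
  let Φ : R →ₗ[ℂ] (Fin k0 → ℂ) :=
    { toFun := fun a i => pair (X ^ (i : ℕ)) (a : ℤ →₀ ℂ)
      map_add' := fun a b => by
        funext i
        exact pair_add _ _ _
      map_smul' := fun c a => by
        funext i
        exact pair_smul _ _ _ }
  have hinj : Function.Injective Φ := by
    rw [injective_iff_map_eq_zero]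
    intro a ha
    have hmom : ∀ k : ℕ, pair (X ^ k) (a : ℤ →₀ ℂ) = 0 := by
      intro k
      induction k using Nat.strong_induction_on with
      | _ k ih =>
        by_cases hk : k < k0
        · exact congrFun ha ⟨k, hk⟩
        · have hk' : k0 ≤ k := by omega
          have h1 := a.2 k hk'
          have h2 : d k = ∑ i ∈ Finset.range (k + 1), C ((d k).coeff i) * X ^ i :=
            as_sum_range_C_mul_X_pow' (d k) (Nat.lt_succ_of_le (hdeg k hk'))
          rw [h2, pair_sum, Finset.sum_range_succ] at h1
          have h3 : ∑ i ∈ Finset.range k, pair (C ((d k).coeff i) * X ^ i) (a : ℤ →₀ ℂ) = 0 := by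
            refine Finset.sum_eq_zero fun i hi => ?_
            rw [pair_C_mul, ih i (Finset.mem_range.mp hi), mul_zero]
          rw [h3, zero_add, pair_C_mul] at h1
          exact (mul_eq_zero.mp h1).resolve_left (hlead k hk')
    have hall : ∀ q : ℂ[X], pair q (a : ℤ →₀ ℂ) = 0 := by
      intro q
      rw [q.as_sum_range_C_mul_X_pow, pair_sum]
      exact Finset.sum_eq_zero fun i _ => by rw [pair_C_mul, hmom, mul_zero]
    exact Subtype.ext (eq_zero_of_pair _ hall)
  have hfin : Module.Finite ℂ R := Module.Finite.of_injective Φ hinj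
  have hfg : R.FG := Module.Finite.iff_fg.mp hfin
  obtain ⟨s, hs⟩ := hfg
  refine ⟨s.biUnion fun b => b.support, fun a ha => ?_⟩
  have haR : a ∈ Submodule.span ℂ (s : Set (ℤ →₀ ℂ)) := by
    rw [hs]; exact ha
  induction haR using Submodule.span_induction with
  | mem x hx => exact Finset.subset_biUnion_of_mem (fun b : ℤ →₀ ℂ => b.support) hx
  | zero => simp
  | add x y _ _ hx hy =>
    exact Finsupp.support_add.trans (Finset.union_subset (hx (by
      have : x ∈ R := by rw [← hs]; assumption
      exact this)) (hy (by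
      have : y ∈ R := by rw [← hs]; assumption
      exact this)))
  | smul c x _ hx =>
    exact Finsupp.support_smul.trans (hx (by
      have : x ∈ R := by rw [← hs]; assumption
      exact this))

end Q57.LU
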