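import Mathlib
import Pool.Agent.Q57.LU.LogD
import Pool.Agent.Q57.LU.Rel
import Pool.Agent.Q57.LM.Trunc

/-! Families of power series whose coefficients are polynomials in a parameter. -/

open PowerSeries

set_option linter.unusedSectionVars false

namespace Q57.LU

open scoped Nat
open Q57.LM (PS mu mu_pos mu_succ s)
open Q57.LS (eu coeff_eu)

/-- the series with the coefficients `P k (n)` -/
noncomputable def ser (P : ℕ → Polynomial ℂ) (n : ℤ) : PS :=
  PowerSeries.mk fun k => (P k).eval (n : ℂ)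

/-- its logarithmic derivative -/
noncomputable def lser (P : ℕ → Polynomial ℂ) (n : ℤ) : PS :=
  PowerSeries.mk fun k => (dl P k).eval (n : ℂ)

theorem eu_ser (P : ℕ → Polynomial ℂ) (hP0 : P 0 = 1) (n : ℤ) :
    eu (ser P n) = ser P n * lser P n := by
  ext k
  rw [coeff_eu, mul_comm (ser P n), coeff_mul, Finset.Nat.sum_antidiagonal_eq_sum_range_succ
    (fun i j => coeff i (lser P n) * coeff j (ser P n)), Finset.sum_range_succ, Nat.sub_self]
  simp only [ser, lser, coeff_mk]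
  rw [hP0, Polynomial.eval_one, mul_one, dl_eq, Polynomial.eval_sub, Polynomial.eval_mul,
    Polynomial.eval_natCast, Polynomial.eval_finsetSum]
  have : ∑ i ∈ Finset.range k, Polynomial.eval (n : ℂ) (if i = 0 then 0 else dl P i * P (k - i))
      = ∑ i ∈ Finset.range k, Polynomial.eval (n : ℂ) (dl P i) * Polynomial.eval (n : ℂ) (P (k - i)) := by
    refine Finset.sum_congr rfl fun i _ => ?_
    split_ifs with h
    · subst h; rw [dl_zero]; simp
    · rw [Polynomial.eval_mul]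
  rw [this]
  ring

theorem ser_ne (P : ℕ → Polynomial ℂ) (hP0 : P 0 = 1) (n : ℤ) : ser P n ≠ 0 := by
  intro h
  have := congrArg (coeff 0) h
  rw [ser, coeff_mk, hP0] at this
  simp at this

theorem eu_prod (P : ℕ → Polynomial ℂ) (hP0 : P 0 = 1) (T : Finset ℤ) (a : ℤ → ℕ) :
    eu (∏ n ∈ T, ser P n ^ a n) = (∏ n ∈ T, ser P n ^ a n) * ∑ n ∈ T, (a n : PS) * lser P n := by
  classical
  induction T using Finset.induction_on with
  | empty => simp
  | insert m T hm ih =>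
    rw [Finset.prod_insert hm, Finset.sum_insert hm, Derivation.leibniz, ih,
      Derivation.leibniz_pow, eu_ser P hP0]
    simp only [smul_eq_mul, nsmul_eq_mul]
    cases h : a m with
    | zero => simp
    | succ k =>
      rw [Nat.add_sub_cancel]
      push_cast
      ring

theorem rel_of_eq (P : ℕ → Polynomial ℂ) (hP0 : P 0 = 1) (T : Finset ℤ) (a a' : ℤ → ℕ)
    (h : ∏ n ∈ T, ser P n ^ a n = ∏ n ∈ T, ser P n ^ a' n) (k : ℕ) :
    ∑ n ∈ T, ((a n : ℂ) - (a' n : ℂ)) * (dl P k).eval (n : ℂ) = 0 := by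
  have h1 := eu_prod P hP0 T a
  have h2 := eu_prod P hP0 T a'
  rw [h, h2] at h1
  have hne : ∏ n ∈ T, ser P n ^ a' n ≠ 0 :=
    Finset.prod_ne_zero_iff.mpr fun n _ => pow_ne_zero _ (ser_ne P hP0 n)
  have h3 := mul_left_cancel₀ hne h1
  have h4 := congrArg (coeff k) h3
  have hc : ∀ b : ℤ → ℕ, coeff k (∑ n ∈ T, (b n : PS) * lser P n)
      = ∑ n ∈ T, (b n : ℂ) * (dl P k).eval (n : ℂ) := by
    intro b
    rw [map_sum]
    refine Finset.sum_congr rfl fun n _ => ?_
    have : (b n : PS) = C (b n : ℂ) := (map_natCast (C : ℂ →+* PS) _).symm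
    rw [this, coeff_C_mul, lser, coeff_mk]
  rw [hc, hc] at h4
  have h5 : ∑ n ∈ T, ((a n : ℂ) - (a' n : ℂ)) * (dl P k).eval (n : ℂ)
      = ∑ n ∈ T, (a n : ℂ) * (dl P k).eval (n : ℂ)
        - ∑ n ∈ T, (a' n : ℂ) * (dl P k).eval (n : ℂ) := by
    rw [← Finset.sum_sub_distrib]
    exact Finset.sum_congr rfl fun n _ => by ring
  rw [h5, ← h4, sub_self]

/-- **Families with polynomial coefficients of exact degree** -/
theorem family (P : ℕ → Polynomial ℂ) (hP0 : P 0 = 1) (hP : ∀ k, (P k).natDegree ≤ k)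
    (k0 : ℕ) (hk0 : ∀ k, k0 ≤ k → dl (fun i => (P i).coeff i) k ≠ 0) :
    ∃ E : Finset ℤ, ∀ n n' : {m : ℤ // m ∉ E} →₀ ℕ,
      n.prod (fun j k => ser P j ^ k) = n'.prod (fun j k => ser P j ^ k) → n = n' := by
  classical
  obtain ⟨E, hE⟩ := finite_support (dl P) k0 (fun k _ => (dl_deg P hP k).1)
    (fun k hk => by rw [(dl_deg P hP k).2]; exact hk0 k hk)
  refine ⟨E, fun n n' h => ?_⟩
  set H : Finset {m : ℤ // m ∉ E} := n.support ∪ n'.support with hH
  set T : Finset ℤ := H.image Subtype.val with hT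
  let b : ({m : ℤ // m ∉ E} →₀ ℕ) → ℤ → ℕ := fun x m => if hm : m ∉ E then x ⟨m, hm⟩ else 0
  have hb : ∀ (x : {m : ℤ // m ∉ E} →₀ ℕ) (j : {m : ℤ // m ∉ E}), b x j = x j := by
    intro x j
    simp only [b]
    rw [dif_pos j.2]
  have hprod : ∀ x : {m : ℤ // m ∉ E} →₀ ℕ, x.support ⊆ H →
      x.prod (fun j k => ser P j ^ k) = ∏ m ∈ T, ser P m ^ b x m := by
    intro x hx
    rw [Finsupp.prod_of_support_subset x hx _ (fun i _ => pow_zero _), hT,
      Finset.prod_image (fun i _ j _ hij => Subtype.ext hij)]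
    exact Finset.prod_congr rfl fun j _ => by rw [hb]
  rw [hprod n Finset.subset_union_left, hprod n' Finset.subset_union_right] at h
  have hrel := rel_of_eq P hP0 T (b n) (b n') h
  let a : ℤ →₀ ℂ := Finsupp.onFinset T
    (fun m => if m ∈ T then ((b n m : ℂ) - (b n' m : ℂ)) else 0) (fun m hm => by
      by_contra h1
      simp [h1] at hm)
  have ha : ∀ m ∈ T, a m = (b n m : ℂ) - (b n' m : ℂ) := fun m hm => by
    simp only [a, Finsupp.onFinset_apply]
    rw [if_pos hm]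
  have hsup := hE a (fun k _ => by
    unfold pair
    rw [Finsupp.sum_of_support_subset a (s := T) Finsupp.support_onFinset_subset
      (fun n c => c * (dl P k).eval (n : ℂ)) (fun i _ => zero_mul _)]
    rw [← hrel k]
    exact Finset.sum_congr rfl fun m hm => by rw [ha m hm])
  ext j
  by_cases hj : j ∈ H
  · have hjT : (j : ℤ) ∈ T := Finset.mem_image_of_mem _ hj
    have h1 : a (j : ℤ) = 0 := by
      by_contra h2
      exact j.2 (hsup (Finsupp.mem_support_iff.mpr h2))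
    rw [ha _ hjT, hb, hb, sub_eq_zero] at h1
    exact_mod_cast h1
  · rw [hH, Finset.mem_union, not_or, Finsupp.notMem_support_iff,
      Finsupp.notMem_support_iff] at hj
    rw [hj.1, hj.2]

/-! ### the Alexander polynomial -/

/-- `Δ(e^x)` as a power series in `z = x²`, for `Δ = d 0 + ∑_{i ≥ 1} d i (t^i + t^(-i))` -/
noncomputable def del (d : ℕ →₀ ℤ) : PS :=
  C ((d 0 : ℤ) : ℂ) + ∑ i ∈ d.support.erase 0, C (2 * ((d i : ℤ) : ℂ))
    * PowerSeries.mk fun k => ((i : ℂ) ^ 2) ^ k / ((2 * k)! : ℂ)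

/-- `x sinh(x/2) / Δ(e^x)` as a power series in `z = x²` -/
noncomputable def ff (d : ℕ →₀ ℤ) : PS := C (1 / 2) * X * rescale (1 / 4) s * (del d)⁻¹

theorem ff_one (d : ℕ →₀ ℤ) (hd : d 0 + 2 * ∑ i ∈ d.support.erase 0, d i = 1) :
    coeff 1 (ff d) = 1 / 2 := by
  have hdel : constantCoeff (del d) = 1 := by
    unfold del
    rw [map_add, constantCoeff_C, map_sum]
    have : ∀ i ∈ d.support.erase 0, constantCoeff (C (2 * ((d i : ℤ) : ℂ))
        * PowerSeries.mk fun k => ((i : ℂ) ^ 2) ^ k / ((2 * k)! : ℂ)) = 2 * ((d i : ℤ) : ℂ) := by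
      intro i _
      rw [map_mul, constantCoeff_C, ← coeff_zero_eq_constantCoeff_apply, coeff_mk]
      simp
    rw [Finset.sum_congr rfl this, ← Finset.mul_sum]
    exact_mod_cast hd
  have e : ff d = X * (C (1 / 2) * rescale (1 / 4) s * (del d)⁻¹) := by unfold ff; ring
  have h1 := coeff_succ_X_mul 0 (C (1 / 2) * rescale (1 / 4) s * (del d)⁻¹)
  rw [zero_add] at h1
  rw [e, h1, coeff_zero_eq_constantCoeff_apply,
    map_mul, map_mul, constantCoeff_inv, hdel, constantCoeff_C,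
    ← coeff_zero_eq_constantCoeff_apply (rescale (1 / 4) s), coeff_rescale, s, coeff_mk]
  simp

/-- the top coefficients do not vanish eventually -/
theorem top_ne (f : ℕ → ℂ) (ρ c : ℂ) (hρ : ρ ≠ 0) (hc : c ≠ 0)
    (hlim : Filter.Tendsto (fun k => f k * ρ ^ k) Filter.atTop (nhds c)) :
    ∃ k0 : ℕ, ∀ k, k0 ≤ k →
      dl (fun i => f (i + 1) * ((mu (i + 1) : ℝ) : ℂ) * 2 ^ (i + 1)) k ≠ 0 := by
  have hρ0 : 0 < ‖ρ‖ := norm_pos_iff.mpr hρ
  have hc0 : 0 < ‖c‖ := norm_pos_iff.mpr hc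
  have hα : 0 < 2 / ‖ρ‖ := by positivity
  have hnorm : ∀ i, ‖f (i + 1) * ((mu (i + 1) : ℝ) : ℂ) * 2 ^ (i + 1)‖
      = ‖f (i + 1) * ρ ^ (i + 1)‖ * vv (2 / ‖ρ‖) i := by
    intro i
    have hm := mu_pos (i + 1)
    unfold vv
    rw [norm_mul, norm_mul, norm_mul, norm_pow, norm_pow, Complex.norm_real,
      Real.norm_of_nonneg hm.le, Complex.norm_ofNat, div_pow]
    field_simp
  have hln := hlim.norm
  obtain ⟨C, hC⟩ := hln.bddAbove_range
  have hC' : ∀ k, ‖f k * ρ ^ k‖ ≤ max C 1 := fun k => le_max_of_le_left (hC ⟨k, rfl⟩)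
  have hev : ∀ᶠ k in Filter.atTop, ‖c‖ / 2 < ‖f k * ρ ^ k‖ :=
    hln.eventually_const_lt (by linarith)
  obtain ⟨k1, hk1⟩ := Filter.eventually_atTop.mp hev
  refine dl_ne _ (2 / ‖ρ‖) (max C 1) (‖c‖ / 2) hα (lt_max_of_lt_right one_pos) (by positivity)
    (fun k => ?_) k1 (fun k hk => ?_)
  · rw [hnorm]
    exact mul_le_mul_of_nonneg_right (hC' _) (vv_pos _ hα k).le
  · rw [hnorm]
    exact mul_le_mul_of_nonneg_right (hk1 (k + 1) (by omega)).le (vv_pos _ hα k).le

end Q57.LU
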