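import Mathlib
import Pool.Agent.Q57.LU.Main

/-! The exponential factor. -/

open PowerSeries

set_option linter.unusedSectionVars false

namespace Q57.LU

open scoped Nat
open Q57.LM (PS mu mu_pos mu_succ s)
open Q57.LS (eu coeff_eu)

theorem eu_mk (f : ℕ → ℂ) (h : f 0 = 1) :
    eu (PowerSeries.mk f : PS) = PowerSeries.mk f * PowerSeries.mk (dl f) := by
  have h1 := eu_ser (fun k => Polynomial.C (f k)) (by rw [h]; rfl) 0
  have e1 : ser (fun k => Polynomial.C (f k)) 0 = PowerSeries.mk f := by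
    ext k
    simp [ser]
  have e2 : lser (fun k => Polynomial.C (f k)) 0 = PowerSeries.mk (dl f) := by
    ext k
    rw [lser, coeff_mk, coeff_mk]
    have := map_dl (Polynomial.evalRingHom ((0 : ℤ) : ℂ)) (fun k => Polynomial.C (f k)) k
    simpa using this
  rw [e1, e2] at h1
  exact h1

theorem dl_mul (u v : PS) (hu : coeff 0 u = 1) (hv : coeff 0 v = 1) (k : ℕ) :
    dl (fun i => coeff i (u * v)) k = dl (fun i => coeff i u) k + dl (fun i => coeff i v) k := by
  have huv : coeff 0 (u * v) = 1 := by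
    rw [coeff_zero_eq_constantCoeff_apply] at *
    rw [map_mul, hu, hv, one_mul]
  have m : ∀ w : PS, PowerSeries.mk (fun i => coeff i w) = w := fun w => by
    ext i; rw [coeff_mk]
  have h1 := eu_mk (fun i => coeff i (u * v)) huv
  have h2 := eu_mk (fun i => coeff i u) hu
  have h3 := eu_mk (fun i => coeff i v) hv
  rw [m] at h1 h2 h3
  have h4 : (u * v) * PowerSeries.mk (dl fun i => coeff i (u * v))
      = (u * v) * (PowerSeries.mk (dl fun i => coeff i u)
        + PowerSeries.mk (dl fun i => coeff i v)) := by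
    rw [← h1, Derivation.leibniz, h2, h3]
    simp only [smul_eq_mul]
    ring
  have hne : u * v ≠ 0 := by
    intro h
    rw [h, map_zero] at huv
    exact zero_ne_one huv
  have h5 := congrArg (coeff k) (mul_left_cancel₀ hne h4)
  rw [map_add, coeff_mk, coeff_mk, coeff_mk] at h5
  exact h5

theorem dl_exp (b : ℂ) (k : ℕ) (hk : 2 ≤ k) :
    dl (fun i => coeff i (rescale b (exp ℂ))) k = 0 := by
  have h0 : coeff 0 (rescale b (exp ℂ)) = 1 := by
    rw [coeff_rescale, coeff_exp]; simp
  have m : PowerSeries.mk (fun i => coeff i (rescale b (exp ℂ))) = rescale b (exp ℂ) := by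
    ext i; rw [coeff_mk]
  have h1 := eu_mk (fun i => coeff i (rescale b (exp ℂ))) h0
  rw [m] at h1
  have h2 : eu (rescale b (exp ℂ)) = rescale b (exp ℂ) * (C b * X) := by
    ext k
    rw [coeff_eu]
    cases k with
    | zero => simp
    | succ k =>
      have e : rescale b (exp ℂ) * (C b * X) = X * (C b * rescale b (exp ℂ)) := by ring
      rw [e, coeff_succ_X_mul, coeff_C_mul, coeff_rescale, coeff_rescale, coeff_exp, coeff_exp]
      have hf : ((k + 1)! : ℂ) ≠ 0 := by exact_mod_cast (k + 1).factorial_ne_zero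
      have hk0 : ((k)! : ℂ) ≠ 0 := by exact_mod_cast k.factorial_ne_zero
      have hk1 : ((k : ℂ) + 1) ≠ 0 := by exact_mod_cast Nat.succ_ne_zero k
      simp only [one_div, map_inv₀, map_natCast]
      rw [Nat.factorial_succ]
      push_cast
      field_simp
      ring
  have hne : rescale b (exp ℂ) ≠ 0 := by
    intro h
    rw [h, map_zero] at h0
    exact zero_ne_one h0
  rw [h2] at h1
  have h3 := congrArg (coeff k) (mul_left_cancel₀ hne h1)
  rw [coeff_mk] at h3
  rw [← h3, coeff_C_mul, coeff_X, if_neg (by omega), mul_zero]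

theorem mu_one : mu 1 = 1 := by
  have h := mu_succ 0
  rw [h]
  simp [Q57.LM.mu]

/-- the top coefficients: `e^(-X/4)` times the Gaussian transform of `f` divided by `X` -/
noncomputable def top (f : PS) : PS :=
  rescale (-1 / 4) (exp ℂ) *
    PowerSeries.mk fun k => coeff (k + 1) f * ((mu (k + 1) : ℝ) : ℂ) * 2 ^ (k + 1)

theorem top_zero (f : PS) (hf : coeff 1 f = 1 / 2) : coeff 0 (top f) = 1 := by
  unfold top
  rw [coeff_zero_eq_constantCoeff_apply, map_mul, ← coeff_zero_eq_constantCoeff_apply,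
    ← coeff_zero_eq_constantCoeff_apply, coeff_rescale, coeff_exp, coeff_mk, zero_add, hf, mu_one]
  simp

theorem dl_top_ne (f : PS) (hf : coeff 1 f = 1 / 2) (ρ c : ℂ) (hρ : ρ ≠ 0) (hc : c ≠ 0)
    (hlim : Filter.Tendsto (fun k => coeff k f * ρ ^ k) Filter.atTop (nhds c)) :
    ∃ k0 : ℕ, ∀ k, k0 ≤ k → dl (fun i => coeff i (top f)) k ≠ 0 := by
  obtain ⟨k0, hk0⟩ := top_ne (fun k => coeff k f) ρ c hρ hc hlim
  refine ⟨max k0 2, fun k hk => ?_⟩
  unfold top
  rw [dl_mul, dl_exp _ _ (le_of_max_le_right hk), zero_add]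
  · simp only [coeff_mk]
    exact hk0 k (le_of_max_le_left hk)
  · rw [coeff_rescale, coeff_exp]; simp
  · rw [coeff_mk, zero_add, hf, mu_one]
    simp

end Q57.LU
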