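import Mathlib
import Pool.Agent.Q57.LS.Hol

/-! Inverses of power series without zeros in a closed disc. -/

open PowerSeries

set_option linter.unusedSectionVars false

namespace Q57.LU

open scoped Nat NNReal ENNReal Topology
open Q57.LM (PS ev Ent ev_C)
open Q57.LS (Geo ev_mul' ev_one ev_add' Gm)

/-- the formal multilinear series -/
noncomputable def fm (f : PS) : FormalMultilinearSeries ℂ ℂ ℂ :=
  FormalMultilinearSeries.ofScalars ℂ (fun k => coeff k f)

theorem summ {B C : ℝ} (hB : 0 < B) {f : PS} (h : ∀ k, ‖coeff k f‖ ≤ C * B ^ k) (z : ℂ)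
    (hz : ‖z‖ < B⁻¹) : Summable fun i => ‖coeff i f * z ^ i‖ := by
  have hr : B * ‖z‖ < 1 := by
    have := (mul_lt_mul_of_pos_left hz hB)
    rwa [mul_inv_cancel₀ hB.ne'] at this
  refine Summable.of_nonneg_of_le (fun i => norm_nonneg _) (fun i => ?_)
    ((summable_geometric_of_lt_one (by positivity) hr).mul_left C)
  rw [norm_mul, norm_pow, mul_pow]
  calc ‖coeff i f‖ * ‖z‖ ^ i ≤ (C * B ^ i) * ‖z‖ ^ i := by gcongr; exact h i
    _ = _ := by ring

theorem hasFP {B C : ℝ} (hB : 0 < B) {f : PS} (h : ∀ k, ‖coeff k f‖ ≤ C * B ^ k) :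
    HasFPowerSeriesOnBall (fun z => ev z f) (fm f) 0 (ENNReal.ofReal B⁻¹) := by
  have hr : ENNReal.ofReal B⁻¹ = ((Real.toNNReal B⁻¹ : ℝ≥0) : ℝ≥0∞) := rfl
  refine ⟨?_, by simpa using hB, ?_⟩
  · rw [hr]
    refine FormalMultilinearSeries.le_radius_of_bound _ C fun n => ?_
    rw [fm, FormalMultilinearSeries.ofScalars_norm, Real.coe_toNNReal _ (by positivity)]
    calc _ ≤ (C * B ^ n) * (B⁻¹) ^ n := by gcongr; exact h n
      _ = C := by rw [mul_assoc, ← mul_pow, mul_inv_cancel₀ hB.ne', one_pow, mul_one]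
  · intro y hy
    have hy' : ‖y‖ < B⁻¹ := by
      rw [Metric.eball_ofReal] at hy
      simpa using hy
    have hsum := (summ hB h y hy').of_norm.hasSum
    rw [zero_add]
    have e : (fun n : ℕ => fm f n fun _ : Fin n => y) = fun n => coeff n f * y ^ n := by
      funext n
      rw [fm, FormalMultilinearSeries.ofScalars_apply_eq, smul_eq_mul]
    rw [e]
    exact hsum

theorem eq_zero_of_ev {B C r : ℝ} (hB : 0 < B) (hr : 0 < r) {f : PS}
    (h : ∀ k, ‖coeff k f‖ ≤ C * B ^ k) (h0 : ∀ z, ‖z‖ < r → ev z f = 0) : f = 0 := by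
  have h1 := (hasFP hB h).hasFPowerSeriesAt
  have h2 := h1.eq_zero_of_eventually (by
    filter_upwards [Metric.ball_mem_nhds (0 : ℂ) hr] with z hz
    exact h0 z (by simpa using hz))
  have h3 := (FormalMultilinearSeries.ofScalars_series_eq_zero (E := ℂ) (c := fun k => coeff k f)).mp h2
  ext k
  rw [map_zero]
  exact congrFun h3 k

/-- a continuous function without zeros in a closed ball has none in a larger one -/
theorem larger (F : ℂ → ℂ) (r r1 : ℝ) (h : r < r1) (hF : ContinuousOn F (Metric.closedBall 0 r1))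
    (h0 : ∀ z, ‖z‖ ≤ r → F z ≠ 0) : ∃ r2, r < r2 ∧ r2 ≤ r1 ∧ ∀ z, ‖z‖ ≤ r2 → F z ≠ 0 := by
  have hcomp : IsCompact (Metric.closedBall (0 : ℂ) r1 ∩ F ⁻¹' {0}) := by
    refine (isCompact_closedBall (0 : ℂ) r1).of_isClosed_subset ?_ Set.inter_subset_left
    exact hF.preimage_isClosed_of_isClosed Metric.isClosed_closedBall isClosed_singleton
  rcases (Metric.closedBall (0 : ℂ) r1 ∩ F ⁻¹' {0}).eq_empty_or_nonempty with he | hne
  · refine ⟨r1, h, le_rfl, fun z hz hz0 => ?_⟩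
    have : z ∈ Metric.closedBall (0 : ℂ) r1 ∩ F ⁻¹' {0} :=
      ⟨by simpa using hz, by simpa using hz0⟩
    rw [he] at this
    exact this
  · obtain ⟨z0, hz0, hmin⟩ := hcomp.exists_isMinOn hne continuous_norm.continuousOn
    have h1 : r < ‖z0‖ := by
      by_contra h2
      exact h0 z0 (not_lt.mp h2) (by simpa using hz0.2)
    have h3 : ‖z0‖ ≤ r1 := by simpa using hz0.1
    refine ⟨(r + ‖z0‖) / 2, by linarith, by linarith, fun z hz hz1 => ?_⟩
    have h4 : z ∈ Metric.closedBall (0 : ℂ) r1 ∩ F ⁻¹' {0} := by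
      refine ⟨?_, by simpa using hz1⟩
      rw [mem_closedBall_zero_iff]; linarith
    have h5 : ‖z0‖ ≤ ‖z‖ := hmin h4
    linarith

theorem geo_inv {R : ℝ} (hR : 0 < R) {f : PS} (hf : Geo R f)
    (h0 : ∀ z, ‖z‖ * R ≤ 1 → ev z f ≠ 0) : Geo R f⁻¹ := by
  obtain ⟨B, C, hB, hBR, hC, hfB⟩ := id hf
  have hFP := hasFP hB hfB
  set B1 := (B + R) / 2 with hB1
  have hB1p : 0 < B1 := by positivity
  have hlt1 : R⁻¹ < B1⁻¹ := inv_strictAnti₀ hB1p (by linarith)
  have hlt2 : B1⁻¹ < B⁻¹ := inv_strictAnti₀ hB (by linarith)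
  have hcont : ContinuousOn (fun z => ev z f) (Metric.closedBall 0 B1⁻¹) := by
    refine hFP.continuousOn.mono fun z hz => ?_
    rw [Metric.eball_ofReal]
    rw [Metric.mem_closedBall] at hz
    exact lt_of_le_of_lt hz hlt2
  obtain ⟨r2, hr2, hr2', hne⟩ := larger (fun z => ev z f) R⁻¹ B1⁻¹ hlt1 hcont (fun z hz => by
    refine h0 z ?_
    calc ‖z‖ * R ≤ R⁻¹ * R := by gcongr
      _ = 1 := inv_mul_cancel₀ hR.ne')
  have hRi : 0 < R⁻¹ := inv_pos.mpr hR
  have hr2p : 0 < r2 := hRi.trans hr2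
  have hdiff : DifferentiableOn ℂ (fun z => (ev z f)⁻¹) (Metric.closedBall 0 r2) := by
    have h1 : DifferentiableOn ℂ (fun z => ev z f) (Metric.closedBall 0 r2) := by
      refine hFP.differentiableOn.mono fun z hz => ?_
      rw [Metric.eball_ofReal]
      rw [Metric.mem_closedBall] at hz
      exact lt_of_le_of_lt hz (lt_of_le_of_lt hr2' hlt2)
    exact h1.inv fun z hz => hne z (by simpa using hz)
  set rr : ℝ≥0 := Real.toNNReal r2 with hrr
  have hrrc : (rr : ℝ) = r2 := Real.coe_toNNReal _ hr2p.le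
  have hG := DifferentiableOn.hasFPowerSeriesOnBall (R := rr) (c := (0 : ℂ))
    (f := fun z => (ev z f)⁻¹) (by rw [hrrc]; exact hdiff) (by
      rw [← NNReal.coe_pos, hrrc]; exact hr2p)
  set q := cauchyPowerSeries (fun z => (ev z f)⁻¹) 0 rr with hq
  set g : PS := PowerSeries.mk fun k => q.coeff k with hg
  set r3 : ℝ := (R⁻¹ + r2) / 2 with hr3
  have hr3p : 0 < r3 := by positivity
  have hr3l : r3 < r2 := by rw [hr3]; linarith
  obtain ⟨C', hC', hb⟩ := q.norm_mul_pow_le_of_lt_radius (r := Real.toNNReal r3) (by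
    refine lt_of_lt_of_le ?_ hG.r_le
    rw [ENNReal.coe_lt_coe, ← NNReal.coe_lt_coe, hrrc, Real.coe_toNNReal _ hr3p.le]
    exact hr3l)
  rw [Real.coe_toNNReal _ hr3p.le] at hb
  have hgb : ∀ k, ‖coeff k g‖ ≤ C' * (r3⁻¹) ^ k := by
    intro k
    have h1 := hb k
    rw [FormalMultilinearSeries.norm_apply_eq_norm_coef] at h1
    rw [hg, coeff_mk, inv_pow, ← div_eq_mul_inv, le_div_iff₀ (by positivity)]
    exact h1
  have hr3R : r3⁻¹ < R := by
    rw [inv_lt_comm₀ hr3p hR, hr3]; linarith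
  have hgG : Geo R g := ⟨r3⁻¹, C', by positivity, hr3R, hC'.le, hgb⟩
  have hev : ∀ z : ℂ, ‖z‖ < r3 → ev z g = (ev z f)⁻¹ := by
    intro z hz
    have h1 := hG.hasSum (y := z) (by
      rw [← ENNReal.ofReal_coe_nnreal, hrrc, Metric.eball_ofReal]
      simpa using hz.trans hr3l)
    rw [zero_add] at h1
    rw [← h1.tsum_eq]
    unfold ev
    refine tsum_congr fun k => ?_
    rw [hg, coeff_mk, FormalMultilinearSeries.apply_eq_pow_smul_coeff, smul_eq_mul, mul_comm]
  have hone : Geo R (1 : PS) := (Gm R hR).one_mem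
  have hh : Geo R (f * g + -1) := Geo.add (Geo.mul hf hgG) (Geo.neg hone)
  obtain ⟨B3, C3, hB3, hB3R, hC3, hh3⟩ := id hh
  have hzero : f * g + -1 = 0 := by
    refine eq_zero_of_ev (r := R⁻¹) hB3 hRi hh3 fun z hz => ?_
    have hzR : ‖z‖ * R ≤ 1 := by
      calc ‖z‖ * R ≤ R⁻¹ * R := by gcongr
        _ = 1 := inv_mul_cancel₀ hR.ne'
    have e1 := ev_add' ((Geo.mul hf hgG).summable z hzR) ((Geo.neg hone).summable z hzR)
    have e2 := ev_mul' (hf.summable z hzR) (hgG.summable z hzR)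
    have e3 : ev z (-1 : PS) = -1 := by
      have : (-1 : PS) = PowerSeries.C (-1) := by rw [map_neg, map_one]
      rw [this, ev_C]
    rw [e1, e2, e3, hev z (by rw [hr3]; linarith), mul_inv_cancel₀ (h0 z hzR)]
    ring
  have hfg : f * g = 1 := by linear_combination hzero
  have hcc : constantCoeff f ≠ 0 := by
    intro h
    have := congrArg (constantCoeff (R := ℂ)) hfg
    rw [map_mul, h, zero_mul, map_one] at this
    exact zero_ne_one this
  have : f⁻¹ = g := by
    calc f⁻¹ = f⁻¹ * (f * g) := by rw [hfg, mul_one]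
      _ = (f⁻¹ * f) * g := by ring
      _ = g := by rw [PowerSeries.inv_mul_cancel f hcc, one_mul]
  rw [this]
  exact hgG

end Q57.LU
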