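import Mathlib
import Pool.Agent.Q57.LU.Main
import Pool.Agent.Q57.LU.Inv

/-! `x sinh(x/2) / Δ(e^x)` when `Δ(e^x)` has one pair of simple zeros of smallest modulus. -/

open PowerSeries

set_option linter.unusedSectionVars false

namespace Q57.LU

open scoped Nat Topology
open Q57.LM (PS s ev ev_C ev_X Ent ent_C ent_X ent_s ent_rescale ev_rescale ev_mul ent_of_finite)
open Q57.LS (Geo ev_mul' ev_one ev_add' lf ga lf_mul_ga ent_lf ev_lf div_lf)

/-- `Δ(e^x) = d 0 + 2 ∑_{i ≥ 1} d i cosh (i x)` -/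
noncomputable def alex (d : ℕ →₀ ℤ) (x : ℂ) : ℂ :=
  (d 0 : ℂ) + ∑ i ∈ d.support.erase 0, 2 * (d i : ℂ) * Complex.cosh (i * x)

/-- `cosh (i x)` as a power series in `x²` -/
noncomputable def cc (i : ℕ) : PS := PowerSeries.mk fun k => ((i : ℂ) ^ 2) ^ k / ((2 * k)! : ℂ)

theorem ent_cc (i : ℕ) : Ent (cc i) := by
  intro ρ hρ
  refine Summable.of_nonneg_of_le (fun k => by positivity) (fun k => ?_)
    (Real.summable_pow_div_factorial ((i : ℝ) ^ 2 * ρ))
  rw [cc, coeff_mk, norm_div, norm_pow, norm_pow, Complex.norm_natCast, Complex.norm_natCast]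
  have h1 : (k ! : ℝ) ≤ ((2 * k)! : ℝ) := by
    exact_mod_cast Nat.factorial_le (by omega)
  have h2 : (0 : ℝ) < (k ! : ℝ) := by exact_mod_cast Nat.factorial_pos k
  calc ((i : ℝ) ^ 2) ^ k / ((2 * k)! : ℝ) * ρ ^ k ≤ ((i : ℝ) ^ 2) ^ k / (k ! : ℝ) * ρ ^ k := by
        gcongr
    _ = _ := by rw [mul_pow]; ring

theorem ev_cc (i : ℕ) (x : ℂ) : ev (x ^ 2) (cc i) = Complex.cosh (i * x) := by
  have h := Complex.hasSum_cosh (i * x)
  rw [← h.tsum_eq]
  unfold ev
  refine tsum_congr fun k => ?_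
  rw [cc, coeff_mk, mul_pow, pow_mul, pow_mul]
  ring

theorem ent_add {f g : PS} (hf : Ent f) (hg : Ent g) : Ent (f + g) := by
  intro ρ hρ
  refine Summable.of_nonneg_of_le (fun k => by positivity) (fun k => ?_) ((hf ρ hρ).add (hg ρ hρ))
  rw [map_add, ← add_mul]
  gcongr
  exact norm_add_le _ _

theorem ent_sum {ι : Type} (T : Finset ι) (f : ι → PS) (hf : ∀ i ∈ T, Ent (f i)) :
    Ent (∑ i ∈ T, f i) := by
  classical
  induction T using Finset.induction_on with
  | empty => rw [Finset.sum_empty]; exact ent_of_finite _ 0 fun k _ => by simp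
  | insert a T ha ih =>
    rw [Finset.sum_insert ha]
    exact ent_add (hf a (Finset.mem_insert_self _ _))
      (ih fun i hi => hf i (Finset.mem_insert_of_mem hi))

theorem ev_sum {ι : Type} (T : Finset ι) (f : ι → PS) (hf : ∀ i ∈ T, Ent (f i)) (z : ℂ) :
    ev z (∑ i ∈ T, f i) = ∑ i ∈ T, ev z (f i) := by
  classical
  induction T using Finset.induction_on with
  | empty => simp [ev]
  | insert a T ha ih =>
    rw [Finset.sum_insert ha, Finset.sum_insert ha, ← ih fun i hi => hf i (Finset.mem_insert_of_mem hi)]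
    exact ev_add' ((hf a (Finset.mem_insert_self _ _)).summable z)
      ((ent_sum T f fun i hi => hf i (Finset.mem_insert_of_mem hi)).summable z)

theorem del_eq (d : ℕ →₀ ℤ) : del d = C ((d 0 : ℤ) : ℂ)
    + ∑ i ∈ d.support.erase 0, C (2 * ((d i : ℤ) : ℂ)) * cc i := rfl

theorem ent_del (d : ℕ →₀ ℤ) : Ent (del d) := by
  rw [del_eq]
  exact ent_add (ent_C _) (ent_sum _ _ fun i _ => (ent_C _).mul (ent_cc i))

theorem ev_del (d : ℕ →₀ ℤ) (x : ℂ) : ev (x ^ 2) (del d) = alex d x := by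
  have h1 : ∀ i ∈ d.support.erase 0, Ent (C (2 * ((d i : ℤ) : ℂ)) * cc i) := fun i _ =>
    (ent_C _).mul (ent_cc i)
  rw [del_eq, ev_add' ((ent_C _).summable _) ((ent_sum _ _ h1).summable _), ev_sum _ _ h1, ev_C]
  unfold alex
  congr 1
  refine Finset.sum_congr rfl fun i _ => ?_
  rw [ev_mul (ent_C _) (ent_cc i), ev_C, ev_cc]

theorem alex_zero (d : ℕ →₀ ℤ) (hd : d 0 + 2 * ∑ i ∈ d.support.erase 0, d i = 1)
    (x : ℂ) (hx : Complex.exp x = 1) : alex d x = 1 := by
  have h1 : ∀ i : ℕ, Complex.cosh (i * x) = 1 := by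
    intro i
    have : Complex.exp (i * x) = 1 := by rw [Complex.exp_nat_mul, hx, one_pow]
    rw [Complex.cosh, Complex.exp_neg, this]
    norm_num
  unfold alex
  simp only [h1, mul_one]
  rw [← Finset.mul_sum]
  exact_mod_cast hd

theorem ev_s_sinh (y : ℂ) : ev (y ^ 2) s * y = Complex.sinh y := by
  have h := Complex.hasSum_sinh y
  rw [← h.tsum_eq]
  unfold ev
  rw [← tsum_mul_right]
  refine tsum_congr fun k => ?_
  rw [s, coeff_mk, pow_succ y (2 * k), pow_mul]
  ring

/-- one pair of simple zeros of smallest modulus -/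
theorem ff_lim_gen (d : ℕ →₀ ℤ) (hd : d 0 + 2 * ∑ i ∈ d.support.erase 0, d i = 1) (x0 : ℂ)
    (h1 : alex d x0 = 0) (h2 : deriv (alex d) x0 ≠ 0)
    (h3 : ∀ x, alex d x = 0 → ‖x‖ ≤ ‖x0‖ → x = x0 ∨ x = -x0) : ∃ ρ c : ℂ, ρ ≠ 0 ∧ c ≠ 0 ∧
    Filter.Tendsto (fun k => coeff k (ff d) * ρ ^ k) Filter.atTop (nhds c) := by
  have hx0 : x0 ≠ 0 := by
    rintro rfl
    rw [alex_zero d hd 0 Complex.exp_zero] at h1
    exact one_ne_zero h1
  set z0 : ℂ := x0 ^ 2 with hz0
  have hz0' : z0 ≠ 0 := pow_ne_zero 2 hx0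
  set β : ℂ := z0⁻¹ with hβ
  have hβz : β * z0 = 1 := inv_mul_cancel₀ hz0'
  set R : ℝ := ‖β‖ with hR
  have hRp : 0 < R := norm_pos_iff.mpr (inv_ne_zero hz0')
  have hRn : ‖z0‖ * R = 1 := by rw [hR, hβ, norm_inv, mul_inv_cancel₀ (norm_ne_zero_iff.mpr hz0')]
  obtain ⟨g, hg, hfac⟩ := div_lf R hRp β z0 rfl hβz (del d) (Geo.of_ent hRp (ent_del d))
  rw [hz0, ev_del, h1, map_zero, zero_add] at hfac
  -- the second factor has no zeros
  have hgne : ∀ z, ‖z‖ * R ≤ 1 → ev z g ≠ 0 := by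
    intro z hz h0
    obtain ⟨x, hx⟩ := IsAlgClosed.exists_pow_nat_eq z (n := 2) (by norm_num)
    have hxa : alex d x = 0 := by
      rw [← ev_del, hx, hfac, ev_mul' ((ent_lf β).summable z) (hg.summable z hz), h0, mul_zero]
    have hxn : ‖x‖ ≤ ‖x0‖ := by
      have h5 : ‖x‖ ^ 2 ≤ ‖x0‖ ^ 2 := by
        rw [← norm_pow, ← norm_pow, hx]
        have : ‖z‖ * R ≤ ‖z0‖ * R := by rw [hRn]; exact hz
        exact le_of_mul_le_mul_right this hRp
      exact (pow_le_pow_iff_left₀ (norm_nonneg _) (norm_nonneg _) two_ne_zero).mp h5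
    have hzz : z = z0 := by
      rcases h3 x hxa hxn with h | h
      · rw [← hx, h]
      · rw [← hx, h, hz0]; ring
    rw [hzz] at h0
    obtain ⟨g2, hg2, hfac2⟩ := div_lf R hRp β z0 rfl hβz g hg
    rw [h0, map_zero, zero_add] at hfac2
    obtain ⟨B, K, hB, hBR, hK, hb⟩ := id hg2
    have hFP := hasFP hB hb
    have hBi : R⁻¹ < B⁻¹ := inv_strictAnti₀ hB hBR
    have hz0n : ‖z0‖ = R⁻¹ := by rw [hR, hβ, norm_inv, inv_inv]
    have hE : DifferentiableAt ℂ (fun z => ev z g2) z0 := by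
      have := hFP.analyticAt_of_mem (y := z0) (by
        rw [Metric.eball_ofReal, mem_ball_zero_iff, hz0n]; exact hBi)
      exact this.differentiableAt
    have hsq : HasDerivAt (fun x : ℂ => x ^ 2) (2 * x0) x0 := by
      simpa using hasDerivAt_pow 2 x0
    have hA : HasDerivAt (fun x : ℂ => 1 - β * x ^ 2) (-(β * (2 * x0))) x0 := by
      have := (hsq.const_mul β).const_sub 1
      simpa using this
    have hA2 : HasDerivAt (fun x : ℂ => (1 - β * x ^ 2) ^ 2)
        (2 * (1 - β * x0 ^ 2) ^ (2 - 1) * (-(β * (2 * x0)))) x0 := by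
      have := hA.pow 2
      exact this
    have hEc : HasDerivAt (fun x : ℂ => ev (x ^ 2) g2) (deriv (fun z => ev z g2) z0 * (2 * x0)) x0 :=
      HasDerivAt.comp x0 (h₂ := fun z => ev z g2) hE.hasDerivAt hsq
    have hprod := hA2.mul hEc
    have hval : (1 - β * x0 ^ 2) = 0 := by rw [← hz0, hβz, sub_self]
    have hnear : alex d =ᶠ[𝓝 x0] (fun x : ℂ => (1 - β * x ^ 2) ^ 2) * fun x => ev (x ^ 2) g2 := by
      have hopen : ∀ᶠ x : ℂ in 𝓝 x0, ‖x ^ 2‖ < B⁻¹ := by
        have hc : ContinuousAt (fun x : ℂ => ‖x ^ 2‖) x0 := by fun_prop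
        exact hc.eventually_lt_const (by
          show ‖x0 ^ 2‖ < B⁻¹
          rw [← hz0, hz0n]; exact hBi)
      filter_upwards [hopen] with x hx'
      have s2 := summ hB hb (x ^ 2) hx'
      have e1 : del d = lf β * (lf β * g2) := by rw [← hfac2]; exact hfac
      have elf : Ent (lf β) := ent_lf β
      have s3 : Summable fun i => ‖coeff i (lf β * g2) * (x ^ 2) ^ i‖ := by
        have h3 := summable_norm_sum_mul_antidiagonal_of_summable_norm (elf.summable (x ^ 2)) s2
        exact h3.congr fun n => by rw [← Q57.LM.coeff_mul_pow]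
      have evlf : ev (x ^ 2) (lf β) = 1 - β * x ^ 2 := by
        have h1' : lf β = 1 + C (-β) * X := by
          unfold lf
          rw [map_neg]; ring
        have e1' : Ent (1 : PS) := ent_of_finite 1 1 fun k hk => by
          rw [coeff_one, if_neg (by omega)]
        have e2' : Ent (C (-β) * X : PS) := (ent_C _).mul ent_X
        rw [h1', ev_add' (e1'.summable _) (e2'.summable _), ev_one, ev_mul (ent_C _) ent_X, ev_C,
          ev_X]
        ring
      rw [← ev_del, e1, ev_mul' (elf.summable _) s3, ev_mul' (elf.summable _) s2, evlf]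
      simp only [Pi.mul_apply]
      ring
    have hder := hnear.deriv_eq
    rw [hprod.deriv, hval] at hder
    apply h2
    rw [hder]
    ring
  -- the inverse
  have hgi := geo_inv hRp hg hgne
  have hg0 : constantCoeff g ≠ 0 := by
    have h5 := hgne 0 (by simp)
    have h6 : ev 0 g = constantCoeff g := by
      unfold ev
      rw [tsum_eq_single 0 (fun k hk => by rw [zero_pow hk, mul_zero])]
      simp
    rwa [h6] at h5
  have hdelc : constantCoeff (del d) ≠ 0 := by
    have h6 : ev ((0 : ℂ) ^ 2) (del d) = constantCoeff (del d) := by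
      unfold ev
      rw [tsum_eq_single 0 (fun k hk => by rw [zero_pow two_ne_zero, zero_pow hk, mul_zero])]
      simp
    rw [← h6, ev_del, alex_zero d hd 0 Complex.exp_zero]
    exact one_ne_zero
  have hinv : (del d)⁻¹ = g⁻¹ * ga β := by
    have h7 : del d * (g⁻¹ * ga β) = 1 := by
      rw [hfac]
      calc lf β * g * (g⁻¹ * ga β) = (lf β * ga β) * (g * g⁻¹) := by ring
        _ = 1 := by rw [lf_mul_ga, PowerSeries.mul_inv_cancel g hg0, one_mul]
    calc (del d)⁻¹ = (del d)⁻¹ * (del d * (g⁻¹ * ga β)) := by rw [h7, mul_one]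
      _ = ((del d)⁻¹ * del d) * (g⁻¹ * ga β) := by ring
      _ = g⁻¹ * ga β := by rw [PowerSeries.inv_mul_cancel _ hdelc, one_mul]
  set h0 : PS := C (1 / 2) * X * rescale (1 / 4) s with hh0
  have hh0E : Ent h0 := ((ent_C _).mul ent_X).mul (ent_rescale _ ent_s)
  set w : PS := h0 * g⁻¹ with hw
  have hwG : Geo R w := Geo.mul (Geo.of_ent hRp hh0E) hgi
  have hff : ff d = w * ga β := by
    show h0 * (del d)⁻¹ = w * ga β
    rw [hinv, hw]; ring
  have hcoef : ∀ k, coeff k (ff d) * z0 ^ k = ∑ i ∈ Finset.range (k + 1), coeff i w * z0 ^ i := by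
    intro k
    rw [hff, coeff_mul, Finset.Nat.sum_antidiagonal_eq_sum_range_succ
      (fun i j => coeff i w * coeff j (ga β)), Finset.sum_mul]
    refine Finset.sum_congr rfl fun i hi => ?_
    have hik : i ≤ k := by
      have := Finset.mem_range.mp hi
      omega
    have e : z0 ^ k = z0 ^ (k - i) * z0 ^ i := by rw [← pow_add]; congr 1; omega
    rw [ga, coeff_mk, e]
    have e2 : β ^ (k - i) * z0 ^ (k - i) = 1 := by rw [← mul_pow, hβz, one_pow]
    linear_combination (coeff i w * z0 ^ i) * e2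
  have hsum := (hwG.summable z0 hRn.le).of_norm
  have hevw : ev z0 w = ev z0 h0 * ev z0 g⁻¹ :=
    ev_mul' (hh0E.summable z0) (hgi.summable z0 hRn.le)
  have hevg : ev z0 g⁻¹ ≠ 0 := by
    have h8 := ev_mul' (hg.summable z0 hRn.le) (hgi.summable z0 hRn.le)
    rw [PowerSeries.mul_inv_cancel g hg0, ev_one] at h8
    exact right_ne_zero_of_mul_eq_one h8.symm
  have hevh : ev z0 h0 ≠ 0 := by
    rw [hh0, ev_mul ((ent_C _).mul ent_X) (ent_rescale _ ent_s), ev_mul (ent_C _) ent_X, ev_C, ev_X,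
      ev_rescale]
    refine mul_ne_zero (mul_ne_zero (by norm_num) hz0') fun h9 => ?_
    have e4 : (1 / 4 : ℂ) * z0 = (x0 / 2) ^ 2 := by rw [hz0]; ring
    have h10 := ev_s_sinh (x0 / 2)
    rw [← e4, h9, zero_mul] at h10
    have h11 : Complex.exp (x0 / 2) = Complex.exp (-(x0 / 2)) := by
      rw [Complex.sinh] at h10
      linear_combination (-2 : ℂ) * h10
    have h12 : Complex.exp x0 = 1 := by
      have : x0 = x0 / 2 + x0 / 2 := by ring
      rw [this, Complex.exp_add]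
      nth_rewrite 2 [h11]
      rw [← Complex.exp_add, add_neg_cancel, Complex.exp_zero]
    rw [alex_zero d hd x0 h12] at h1
    exact one_ne_zero h1
  refine ⟨z0, ev z0 w, hz0', ?_, ?_⟩
  · rw [hevw]; exact mul_ne_zero hevh hevg
  · simp only [hcoef]
    exact (Filter.tendsto_add_atTop_iff_nat 1).mpr hsum.hasSum.tendsto_sum_nat

end Q57.LU
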