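import Mathlib
import Pool.Agent.Q57.LU.Gen

/-! The Alexander polynomials `a t + (1 - 2 a) + a t⁻¹`, `a ≠ 0`, of the knots of genus one. -/

open PowerSeries

set_option linter.unusedSectionVars false

namespace Q57.LU

open scoped Nat Topology

theorem exists_pt (a : ℤ) (ha : a ≠ 0) : ∃ x0 : ℂ, ‖x0‖ < Real.pi ∧
    Complex.cosh x0 = 1 - 1 / (2 * (a : ℂ)) := by
  rcases lt_or_gt_of_ne ha with h | h
  · have ha1 : (a : ℝ) ≤ -1 := by
      have : a ≤ -1 := by omega
      exact_mod_cast this
    have h2a : -(1 : ℝ) / 2 ≤ 1 / (2 * (a : ℝ)) := by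
      have h3 : (a : ℝ) ≠ 0 := by exact_mod_cast ha
      have h4 : 1 / (2 * (a : ℝ)) - -(1 : ℝ) / 2 = (1 + (a : ℝ)) / (2 * (a : ℝ)) := by
        field_simp
        ring
      have h5 : 0 ≤ (1 + (a : ℝ)) / (2 * (a : ℝ)) :=
        div_nonneg_of_nonpos (by linarith) (by linarith)
      linarith
    have h2b : 1 / (2 * (a : ℝ)) < 0 := by
      apply div_neg_of_pos_of_neg one_pos; linarith
    have hc1 : 1 ≤ 1 - 1 / (2 * (a : ℝ)) := by linarith
    have hc2 : 1 - 1 / (2 * (a : ℝ)) ≤ 3 / 2 := by linarith
    refine ⟨((Real.arcosh (1 - 1 / (2 * (a : ℝ))) : ℝ) : ℂ), ?_, ?_⟩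
    · rw [Complex.norm_real, Real.norm_of_nonneg (Real.arcosh_nonneg hc1)]
      have h3 : Real.cosh (Real.arcosh (1 - 1 / (2 * (a : ℝ)))) < Real.cosh Real.pi := by
        rw [Real.cosh_arcosh hc1]
        have h4 : 3 / 2 < Real.cosh Real.pi := by
          have h5 := Real.add_one_le_exp Real.pi
          have h6 := Real.exp_pos (-Real.pi)
          have h7 := Real.pi_gt_three
          rw [Real.cosh_eq]
          linarith
        linarith
      rw [Real.cosh_lt_cosh, abs_of_nonneg (Real.arcosh_nonneg hc1),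
        abs_of_nonneg Real.pi_pos.le] at h3
      exact h3
    · rw [← Complex.ofReal_cosh, Real.cosh_arcosh hc1]
      push_cast
      ring
  · have ha1 : (1 : ℝ) ≤ (a : ℝ) := by exact_mod_cast h
    have h2b : 0 < 1 / (2 * (a : ℝ)) := by positivity
    have h2a : 1 / (2 * (a : ℝ)) ≤ 1 / 2 := by
      rw [div_le_div_iff₀ (by linarith) (by norm_num)]
      linarith
    refine ⟨((Real.arccos (1 - 1 / (2 * (a : ℝ))) : ℝ) : ℂ) * Complex.I, ?_, ?_⟩
    · rw [norm_mul, Complex.norm_I, mul_one, Complex.norm_real,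
        Real.norm_of_nonneg (Real.arccos_nonneg _)]
      have h3 : Real.arccos (1 - 1 / (2 * (a : ℝ))) ≤ Real.pi / 2 := by
        rw [Real.arccos_le_pi_div_two]; linarith
      have := Real.pi_pos
      linarith
    · rw [Complex.cosh_mul_I, ← Complex.ofReal_cos, Real.cos_arccos (by linarith) (by linarith)]
      push_cast
      ring

/-- the hypotheses of `ff_lim_gen` -/
theorem genus_one (a : ℤ) (ha : a ≠ 0) (d : ℕ →₀ ℤ)
    (hd : ∀ i, d i = if i = 0 then 1 - 2 * a else if i = 1 then a else 0) :
    ∃ x0 : ℂ, alex d x0 = 0 ∧ deriv (alex d) x0 ≠ 0 ∧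
      ∀ x, alex d x = 0 → ‖x‖ ≤ ‖x0‖ → x = x0 ∨ x = -x0 := by
  have haC : (a : ℂ) ≠ 0 := by exact_mod_cast ha
  have hsupp : d.support.erase 0 = {1} := by
    ext i
    rw [Finset.mem_erase, Finsupp.mem_support_iff, Finset.mem_singleton, hd]
    constructor
    · rintro ⟨h0, h1⟩
      by_contra hi
      rw [if_neg h0, if_neg hi] at h1
      exact h1 rfl
    · rintro rfl
      simpa using ha
  have halex : alex d = fun x => 1 - 2 * (a : ℂ) + 2 * (a : ℂ) * Complex.cosh x := by
    funext x
    unfold alex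
    rw [hsupp, Finset.sum_singleton, hd, hd, if_pos rfl, if_neg one_ne_zero, if_pos rfl]
    push_cast
    rw [one_mul]
  obtain ⟨x0, hn, hc⟩ := exists_pt a ha
  refine ⟨x0, ?_, ?_, ?_⟩
  · rw [halex]
    simp only [hc]
    field_simp
    ring
  · have hder : deriv (alex d) x0 = 2 * (a : ℂ) * Complex.sinh x0 := by
      rw [halex]
      have := ((Complex.hasDerivAt_cosh x0).const_mul (2 * (a : ℂ))).const_add (1 - 2 * (a : ℂ))
      exact this.deriv
    rw [hder]
    refine mul_ne_zero (mul_ne_zero two_ne_zero haC) fun hs => ?_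
    have h1 := Complex.cosh_sq_sub_sinh_sq x0
    rw [hs, hc] at h1
    have h2 : (4 * (a : ℂ)) = 1 := by
      field_simp at h1
      linear_combination (-1 : ℂ) * h1
    have h3 : (4 * a : ℤ) = 1 := by exact_mod_cast h2
    omega
  · intro x hx hxn
    have h1 : Complex.cosh x = Complex.cosh x0 := by
      rw [halex] at hx
      simp only at hx
      rw [hc]
      field_simp
      linear_combination hx
    rw [← Complex.cos_mul_I, ← Complex.cos_mul_I, Complex.cos_eq_cos_iff] at h1
    obtain ⟨k, hk⟩ := h1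
    have hk0 : k = 0 := by
      have hkn : ‖(2 * (k : ℂ) * (Real.pi : ℂ))‖ < 2 * Real.pi := by
        have e : ‖(2 * (k : ℂ) * (Real.pi : ℂ))‖ ≤ ‖x0‖ + ‖x‖ := by
          rcases hk with hk | hk
          · have : 2 * (k : ℂ) * (Real.pi : ℂ) = x0 * Complex.I - x * Complex.I := by
              rw [hk]; ring
            rw [this]
            refine (norm_sub_le _ _).trans (le_of_eq ?_)
            rw [norm_mul, norm_mul, Complex.norm_I, mul_one, mul_one]
          · have : 2 * (k : ℂ) * (Real.pi : ℂ) = x0 * Complex.I + x * Complex.I := by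
              rw [hk]; ring
            rw [this]
            refine (norm_add_le _ _).trans (le_of_eq ?_)
            rw [norm_mul, norm_mul, Complex.norm_I, mul_one, mul_one]
        linarith
      rw [norm_mul, norm_mul, Complex.norm_real, Real.norm_of_nonneg Real.pi_pos.le,
        Complex.norm_ofNat, Complex.norm_intCast] at hkn
      have h5 : |(k : ℝ)| < 1 := by
        have := Real.pi_pos
        by_contra h6
        rw [not_lt] at h6
        have : 2 * 1 * Real.pi ≤ 2 * |(k : ℝ)| * Real.pi := by gcongr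
        linarith
      have h7 : |k| < 1 := by exact_mod_cast h5
      rwa [Int.abs_lt_one_iff] at h7
    subst hk0
    rcases hk with hk | hk
    · left
      have : x0 * Complex.I = x * Complex.I := by rw [hk]; push_cast; ring
      exact (mul_right_cancel₀ Complex.I_ne_zero this).symm
    · right
      have : x0 * Complex.I = -x * Complex.I := by rw [hk]; push_cast; ring
      rw [mul_right_cancel₀ Complex.I_ne_zero this, neg_neg]

end Q57.LU
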